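import Mathlib
import Pool.Agent.H28.SqrtK
import Pool.Agent.H28.Schur

set_option autoImplicit false

namespace Pool.Agent.Results.MP_21a1fd_an.Sqrt

open Polynomial Finset

/-- only real zeros (the zero polynomial counts) -/
def RealRooted (f : ℝ[X]) : Prop := f = 0 ∨ ∀ z : ℂ, aeval z f = 0 → z.im = 0

/-- multiplier sequence -/
def IsMS (γ : ℕ → ℝ) : Prop :=
  ∀ (n : ℕ) (a : ℕ → ℝ), RealRooted (∑ k ∈ range (n + 1), C (a k) * X ^ k) →
    RealRooted (∑ k ∈ range (n + 1), C (γ k * a k) * X ^ k)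

theorem result : IsMS fun k => √k / k.factorial := by
  intro n a ha
  obtain ⟨p, B, h1, h2, -⟩ := Pool.Agent.H28.SqrtK.approx
  refine Pool.Agent.H28.Schur.ms_of_approx (fun k => √k / k.factorial) p h1
    (fun k => by simpa only [div_div, ← sq] using h2 k) _ _ ha fun k => ?_
  simp only [finset_sum_coeff, coeff_C_mul_X_pow, sum_ite_eq, mul_ite, mul_zero]

end Pool.Agent.Results.MP_21a1fd_an.Sqrt
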